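import Mathlib

set_option autoImplicit false

namespace Pool.Agent.Results.MP_2ae182_co.Five

/-- the prefix reversal of the first k positions (positions indexed from 0) -/
def rv {n : ℕ} (k : Fin (n + 1)) (i : Fin n) : Fin n :=
  if h : (i : ℕ) < k then ⟨k - 1 - i, by omega⟩ else i

/-- the pancake graph: the one-line form of s is that of p with its first k entries reversed -/
def pancake (n : ℕ) : SimpleGraph (Equiv.Perm (Fin n)) :=
  SimpleGraph.fromRel fun p s => ∃ k : Fin (n + 1), 2 ≤ (k : ℕ) ∧ ∀ i, s i = p (rv k i)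

def tb (N : ℕ) (i : Fin 120) (j : Fin 5) : Fin 5 :=
  ⟨(N >>> (3 * (5 * (i : ℕ) + j))) % 8 % 5, Nat.mod_lt _ (by norm_num)⟩

def nf : ℕ := 0x80a7016932227012234444cb5016222a065310a7014237022ca1195031116214d181a2235016444c852205c4c805a80b8828c845c1194222c44c885a4cc0842d08ca2e04588a065405a8c840b8818dc21388121464270c6818132d085c08b88161488330b0a168409981171942321468184270869306270806340c4c35086620a161330270846370a0c231850b3106604d085a06350860c4c152221c4c121a84388a8c141c3184620cc4c181a4c428c0d18c20e14198a161421a8c14438888dc05388805460a7046888530d181c28388865488b1032a068c298850718463054688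

def ni : ℕ := 0x80a7084c388a7014446818cb50162241c21384a7010e270842264c4c284350166340468a8c13034216a06544c808b8507116202d46818c23194232142e20842d18195180a32cc0988535080626444dc08b88121460a8da3030620d42988533006628585106622c428381171942308c68180b50868385270844388170b42161441981330a6210d470a0222cc41a8585032630846528c83026214e068c4c108c6508d17002e26842c28595032222e04846518c15030a16cc41888b50106344469c05388821380a71a2230540d189831322065485a1102e221c2988133190a3054688

theorem h1 : ∀ i j, tb ni i (tb nf i j) = j := by decide +kernel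

theorem h2 : ∀ i j, tb nf i (tb ni i j) = j := by decide +kernel

theorem h3 : ∀ i j : Fin 120, (∀ k, tb nf i k = tb nf j k) → i = j := by decide +kernel

theorem h4 : ∀ i : Fin 120, i ≠ i + 1 ∧
    ∃ k : Fin 6, 2 ≤ (k : ℕ) ∧ ∀ j, tb nf (i + 1) j = tb nf i (rv k j) := by decide +kernel

theorem h5 : ∀ (i : Fin 120) j, tb nf 20 (tb nf i j) = tb nf (i + 20) j := by decide +kernel

def x (i : Fin 120) : Equiv.Perm (Fin 5) := ⟨tb nf i, tb ni i, h1 i, h2 i⟩

theorem xinj : Function.Injective x := fun i j h => h3 i j (fun k => congrArg (fun p => p k) h)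

theorem result : ∃ c : Fin 120 → Equiv.Perm (Fin 5), Function.Bijective c ∧
    (∀ i, (pancake 5).Adj (c i) (c (i + 1))) ∧
    ∃ f : pancake 5 ≃g pancake 5, ∀ i, f (c i) = c (i + 20) := by
  refine ⟨x, (Fintype.bijective_iff_injective_and_card x).2 ⟨xinj, by simp [Fintype.card_perm]; rfl⟩,
    fun i => ?_, ⟨Equiv.mulLeft (x 20), ?_⟩, fun i => ?_⟩
  · rw [pancake, SimpleGraph.fromRel_adj]
    exact ⟨fun h => (h4 i).1 (xinj h), Or.inl (h4 i).2⟩
  · intro a b
    simp [pancake, SimpleGraph.fromRel_adj]
  · ext j
    exact congrArg Fin.val (h5 i j)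

end Pool.Agent.Results.MP_2ae182_co.Five
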